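import Pool.Agent.W297.LP.Stm

/-!
Project LP (helper297), problem MP_6505eb_co, part DICH5: from FACTS, NUM, SYM.
-/

set_option autoImplicit false

open Finset

namespace Pool.Agent.W947.LP

open Pool.Agent.W297.LP

/-- the numerical part -/
theorem num (m δ h e b r o M1 M2 E F : ℝ) (hm0 : 0 < m) (hm : m ≤ 1 / 4)
    (hh0 : 0 < h) (hh1 : h ≤ δ / 32) (hh2 : h ≤ 1 / 2000) (he0 : 0 < e) (he1 : e ≤ δ / 10)
    (he2 : e ≤ 1 / 2000)
    (b0 : 0 ≤ b) (r0 : 0 ≤ r) (o0 : 0 ≤ o) (le1 : b + r + o ≤ 1) (ge1 : 1 - h ≤ b + r + o)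
    (E0 : 0 ≤ E) (F0 : 0 ≤ F)
    (htot : o + m * (b ^ 2 + r ^ 2) + b * r - h ≤ M1 + M2) (EF : E + F = b * (r + o))
    (m1 : m * b ^ 2 + F - h ≤ M1) (m2 : E ≤ M2) (hA : M1 + 4 / 5 * M2 ≤ m + e)
    (hB : 4 / 5 * M1 + M2 ≤ m + e) (hrb : r ≤ b) : 1 - δ ≤ b := by
  have hb1 : b ≤ 1 := by linarith
  -- the sum
  have hS : o + m * (b ^ 2 + r ^ 2) + b * r ≤ 10 / 9 * (m + e) + h := by linarith
  obtain ⟨y, hy⟩ : ∃ y, y = r + o := ⟨_, rfl⟩
  obtain ⟨w, hw⟩ : ∃ w, w = 1 - b - y := ⟨_, rfl⟩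
  have hw0 : 0 ≤ w := by rw [hw, hy]; linarith
  have hwh : w ≤ h := by rw [hw, hy]; linarith
  have hy0 : 0 ≤ y := by rw [hy]; linarith
  have hbw : b = 1 - y - w := by rw [hw]; ring
  have hy1 : y ≤ 1 := by linarith
  have h1 : m * b ^ 2 + b * y ≤ 10 / 9 * (m + e) + h := by
    have h2 : b * y ≤ o + b * r := by
      rw [hy]
      have : b * o ≤ 1 * o := mul_le_mul_of_nonneg_right hb1 o0
      linarith
    have h3 : 0 ≤ m * r ^ 2 := by positivity
    have h4 : m * (b ^ 2 + r ^ 2) = m * b ^ 2 + m * r ^ 2 := by ring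
    linarith
  have hb2 : (1 - y) ^ 2 - 2 * h ≤ b ^ 2 := by
    have h2 : b ^ 2 = (1 - y) ^ 2 - 2 * ((1 - y) * w) + w ^ 2 := by rw [hbw]; ring
    have h3 : (1 - y) * w ≤ 1 * h := mul_le_mul (by linarith) hwh hw0 (by norm_num)
    have h4 : 0 ≤ w ^ 2 := sq_nonneg w
    linarith
  have hby : (1 - y) * y - h ≤ b * y := by
    have h2 : b * y = (1 - y) * y - w * y := by rw [hbw]; ring
    have h3 : w * y ≤ h * 1 := mul_le_mul hwh hy1 hy0 hh0.le
    linarith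
  have hmb : m * (1 - y) ^ 2 - h ≤ m * b ^ 2 := by
    have h2 := mul_le_mul_of_nonneg_left hb2 hm0.le
    have h3 : m * (2 * h) ≤ 1 / 4 * (2 * h) := mul_le_mul_of_nonneg_right hm (by linarith)
    have h4 : m * ((1 - y) ^ 2 - 2 * h) = m * (1 - y) ^ 2 - m * (2 * h) := by ring
    linarith
  -- the dichotomy for y
  have hq : y / 2 - 3 / 4 * y ^ 2 - 1 / 36 ≤ 10 / 9 * e + 3 * h := by
    have h2 : m * (1 - y) ^ 2 + (1 - y) * y - 10 / 9 * m ≤ 10 / 9 * e + 3 * h := by linarith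
    have h3 : m * (2 * y - y ^ 2 + 1 / 9) ≤ 1 / 4 * (2 * y - y ^ 2 + 1 / 9) := by
      refine mul_le_mul_of_nonneg_right hm ?_
      have h5 : y * y ≤ 1 * y := mul_le_mul_of_nonneg_right hy1 hy0
      have h6 : y ^ 2 = y * y := sq y
      linarith
    have h4 : m * (1 - y) ^ 2 + (1 - y) * y - 10 / 9 * m =
        y - y ^ 2 - m * (2 * y - y ^ 2 + 1 / 9) := by ring
    linarith
  have hy7 : y ≤ 7 / 100 := by
    by_contra hy7
    rw [not_le] at hy7
    have hy6 : 6 / 10 ≤ y := by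
      by_contra hy6
      rw [not_le] at hy6
      have h2 : 0 < (y - 7 / 100) * (6 / 10 - y) := mul_pos (by linarith) (by linarith)
      have h3 : (y - 7 / 100) * (6 / 10 - y) = 67 / 100 * y - 42 / 1000 - y ^ 2 := by ring
      linarith
    have hb4 : b ≤ 4 / 10 := by linarith
    have hr4 : r ≤ 4 / 10 := by linarith
    have h2 : 36 / 100 ≤ (1 - b) * (1 - r) := by
      have := mul_le_mul (show (6 / 10 : ℝ) ≤ 1 - b by linarith)
        (show (6 / 10 : ℝ) ≤ 1 - r by linarith) (by norm_num) (by linarith)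
      linarith
    have h3 : (1 - b) * (1 - r) = o + b * r + w := by
      rw [hw, hy]
      ring
    have h4 : 0 ≤ m * (b ^ 2 + r ^ 2) := by positivity
    linarith
  -- the final step
  have h2 : m * b ^ 2 + 4 / 5 * (b * y) ≤ m + e + h := by
    have h3 : 4 / 5 * (b * y) ≤ F + 4 / 5 * E := by
      rw [hy, ← EF]
      linarith
    linarith
  have h3 : m * (1 - y) ^ 2 + 4 / 5 * ((1 - y) * y) ≤ m + e + 3 * h := by linarith
  have h4 : m * (1 - y) ^ 2 + 4 / 5 * ((1 - y) * y) - m =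
      y * (4 / 5 - 2 * m - (4 / 5 - m) * y) := by ring
  have h5 : 1 / 5 ≤ 4 / 5 - 2 * m - (4 / 5 - m) * y := by
    have h6 : (4 / 5 - m) * y ≤ 4 / 5 * (7 / 100) :=
      mul_le_mul (by linarith) hy7 hy0 (by norm_num)
    linarith
  have h6 : y * (1 / 5) ≤ y * (4 / 5 - 2 * m - (4 / 5 - m) * y) :=
    mul_le_mul_of_nonneg_left h5 hy0
  linarith

theorem co_ker {V : Type} {W : V → V → ℝ} (h : Ker W) : Ker (co W) := by
  constructor
  · intro x y
    unfold co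
    rw [h.symm x y]
  · intro x y
    unfold co
    rcases h.zo x y with h1 | h1
    · right
      rw [h1]
      norm_num
    · left
      rw [h1]
      norm_num

theorem ms_le {V : Type} [Fintype V] {A B : Finset V} (h : A ⊆ B) : ms A ≤ ms B := by
  unfold ms
  exact div_le_div_of_nonneg_right (Nat.cast_le.2 (Finset.card_le_card h)) (Nat.cast_nonneg _)

/-- one half -/
theorem half (hF : SFacts) (hN : Pool.Agent.W297.LP.SNum) (hS : SSym) (k : ℕ) (hk : 5 ≤ k) (δ : ℝ)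
    (hδ : 0 < δ) :
    ∃ e : ℝ, 0 < e ∧
    ∀ (V : Type) [Fintype V] [DecidableEq V] (W : V → V → ℝ) (D1 D2 : Finset V), Ker W →
      0 < Fintype.card V → Ext k e W D1 D2 → ms (D1 \ D2) ≤ ms (D2 \ D1) →
      1 - δ ≤ ms D2 := by
  have hm0 : 0 < mu k := by
    unfold mu
    have : (5 : ℝ) ≤ k := by exact_mod_cast hk
    have h2 : (0 : ℝ) < (k : ℝ) - 1 := by linarith
    positivity
  have hm : mu k ≤ 1 / 4 := by
    unfold mu
    have : (5 : ℝ) ≤ k := by exact_mod_cast hk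
    exact one_div_le_one_div_of_le (by norm_num) (by linarith)
  obtain ⟨h, hh⟩ : ∃ h, h = min (δ / 32) (1 / 2000 : ℝ) := ⟨_, rfl⟩
  have hh0 : 0 < h := by rw [hh]; positivity
  have hh1 : h ≤ δ / 32 := by rw [hh]; exact min_le_left _ _
  have hh2 : h ≤ 1 / 2000 := by rw [hh]; exact min_le_right _ _
  obtain ⟨e', he', hfacts⟩ := hF k (by omega) h hh0
  refine ⟨min e' (min (δ / 10) (1 / 2000)), by positivity, ?_⟩
  intro V _ _ W D1 D2 hW hV hE hle
  have hE' := hS.2 k _ e' V W D1 D2 (by omega) (min_le_left _ _) hE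
  have hf := hfacts V W D1 D2 hW hV hE'
  obtain ⟨hc1, hc2⟩ := hN.1 (mu k) hm0 hm
  have hA := hE.two _ _ _ hc1
  have hB := hE.two _ _ _ hc2
  have hn : (0 : ℝ) < Fintype.card V := by exact_mod_cast hV
  have hsum : ∑ x : V, (fun _ : ℝ => -mu k) (dg W x) = -(mu k) * Fintype.card V := by
    simp only [Finset.sum_const, Finset.card_univ, nsmul_eq_mul]
    ring
  rw [hsum] at hA hB
  refine le_trans (num (mu k) δ h (min e' (min (δ / 10) (1 / 2000))) (ms (D2 \ D1)) (ms (D1 \ D2))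
    (ms (D1 ∪ D2)ᶜ) _ _ _ _ hm0 hm hh0 hh1 hh2 (by positivity)
    ((min_le_right _ _).trans (min_le_left _ _)) ((min_le_right _ _).trans (min_le_right _ _))
    hf.b0 hf.r0 hf.o0 hf.le1 hf.ge1 hf.E0 hf.F0 hf.tot hf.EF hf.m1 hf.m2 ?_ ?_ hle)
    (ms_le Finset.sdiff_subset)
  · rw [mul_div_assoc', ← add_div, div_le_iff₀ hn]
    linarith
  · rw [mul_div_assoc', ← add_div, div_le_iff₀ hn]
    linarith

/-- DICH5: from FACTS, NUM, SYM -/
theorem dich5 (hF : SFacts) (hN : Pool.Agent.W297.LP.SNum) (hS : SSym) : SDich5 := by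
  intro k hk δ hδ
  obtain ⟨e, he, h⟩ := half hF hN hS k hk δ hδ
  refine ⟨e, he, ?_⟩
  intro V _ _ W D1 D2 hW hV hE
  rcases le_total (ms (D1 \ D2)) (ms (D2 \ D1)) with h1 | h1
  · exact Or.inl (h V W D1 D2 hW hV hE h1)
  · exact Or.inr (h V (co W) D2 D1 (co_ker hW) hV (hS.1 k e V W D1 D2 hW hE) h1)

end Pool.Agent.W947.LP
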